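import Pool.Agent.Helper6.LP.St

/-! Project LP, module MOA: the first moment. -/

set_option autoImplicit false

noncomputable section

namespace Pool.Agent.Helper11.LP

open Finset
open Pool.Agent.Helper6.LP

open Classical in
/-- MOA. -/
theorem hMOA (hO : StONE) : StMOA := by
  intro ε hε
  obtain ⟨B, hB⟩ := hO ε hε
  refine ⟨B, fun A Λ p w P a r J M hp hw hP hΛ hV => ?_⟩
  obtain ⟨T, hT⟩ : ∃ T, T = TT A p w P r J := ⟨_, rfl⟩
  have e1 : ∑ m ∈ Icc 1 M, XX A p w P a r J m =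
      ∑ j ∈ T, (VV p w P a (r + P * j))⁻¹ * (((Icc 1 M).filter
        (fun m : ℕ => Sf p w ((a : ℤ) + P * m) ((r + P * j : ℕ) : ℤ))).card : ℝ) := by
    have e2 : ∀ m : ℕ, XX A p w P a r J m = ∑ j ∈ T,
        if Sf p w ((a : ℤ) + P * m) ((r + P * j : ℕ) : ℤ) then (VV p w P a (r + P * j))⁻¹
        else 0 := by
      intro m
      unfold XX
      rw [← hT, sum_filter]
    rw [sum_congr rfl fun m _ => e2 m, sum_comm]
    refine sum_congr rfl fun j _ => ?_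
    rw [← sum_filter, sum_const, nsmul_eq_mul, mul_comm]
  have e3 : ∀ j ∈ T, (1 - ε) * M - Λ * (w : ℝ) ^ B ≤ (VV p w P a (r + P * j))⁻¹ *
      (((Icc 1 M).filter
        (fun m : ℕ => Sf p w ((a : ℤ) + P * m) ((r + P * j : ℕ) : ℤ))).card : ℝ) := by
    intro j hj
    have hj' := hj
    rw [hT] at hj'
    have h1 := hV j hj'
    unfold TT at hj'
    rw [mem_filter] at hj'
    have hy : 2 ≤ r + P * j := by
      have := hj'.2.1
      omega
    have h2 := hB p P a (r + P * j) w M hp hP hw hy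
    obtain ⟨V, hVd⟩ : ∃ V, V = VV p w P a (r + P * j) := ⟨_, rfl⟩
    rw [← hVd] at h1 h2 ⊢
    obtain ⟨c, hc⟩ : ∃ c : ℝ, c = (((Icc 1 M).filter
        (fun m : ℕ => Sf p w ((a : ℤ) + P * m) ((r + P * j : ℕ) : ℤ))).card : ℝ) := ⟨_, rfl⟩
    rw [← hc] at h2 ⊢
    have hV0 : 0 < V := by
      by_contra hneg
      push Not at hneg
      nlinarith
    have h3 := (abs_le.mp h2).1
    have h4 : V⁻¹ ≤ Λ := by
      rw [inv_le_iff_one_le_mul₀ hV0]
      linarith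
    have h5 : (1 - ε) * M * V - (w : ℝ) ^ B ≤ c := by nlinarith
    have h6 : V⁻¹ * ((1 - ε) * M * V - (w : ℝ) ^ B) ≤ V⁻¹ * c :=
      mul_le_mul_of_nonneg_left h5 (inv_pos.mpr hV0).le
    have h7 : V⁻¹ * ((1 - ε) * M * V - (w : ℝ) ^ B) = (1 - ε) * M - V⁻¹ * (w : ℝ) ^ B := by
      field_simp
    have h8 : V⁻¹ * (w : ℝ) ^ B ≤ Λ * (w : ℝ) ^ B :=
      mul_le_mul_of_nonneg_right h4 (by positivity)
    linarith
  rw [e1, ← hT]
  calc (1 - ε) * (M * (T.card : ℝ)) - T.card * Λ * (w : ℝ) ^ B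
      = ∑ j ∈ T, ((1 - ε) * M - Λ * (w : ℝ) ^ B) := by
        rw [sum_const, nsmul_eq_mul]
        ring
    _ ≤ _ := sum_le_sum e3

end Pool.Agent.Helper11.LP
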