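import Pool.Agent.Helper6.LP.St

/-! Project LP, module VLP: lower bound for the density. -/

set_option autoImplicit false

noncomputable section

namespace Pool.Agent.Helper11.LP

open Finset
open Pool.Agent.Helper15.AB (StMT)
open Pool.Agent.Helper60.LZ (js)
open Pool.Agent.Helper98.LM (QQ)
open Pool.Agent.Helper6.LP

private theorem fac_VLP {x : ℝ} (h0 : 0 ≤ x) (h1 : x ≤ 1 / 2) :
    Real.exp (-(x + 2 * x ^ 2)) ≤ 1 - x := by
  rw [Real.exp_neg]
  have h2 : 1 + x + 2 * x ^ 2 ≤ Real.exp (x + 2 * x ^ 2) := by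
    have := Real.add_one_le_exp (x + 2 * x ^ 2)
    linarith
  have h3 : 0 < 1 + x + 2 * x ^ 2 := by positivity
  calc (Real.exp (x + 2 * x ^ 2))⁻¹ ≤ (1 + x + 2 * x ^ 2)⁻¹ := inv_anti₀ h3 h2
    _ ≤ 1 - x := by
      rw [inv_le_iff_one_le_mul₀ h3]
      nlinarith [mul_nonneg (sq_nonneg x) (by linarith : 0 ≤ 1 - 2 * x)]

private theorem js_bd (t l : ℕ) : -1 ≤ js t l ∧ js t l ≤ 1 := by
  unfold js
  rcases jacobiSym.trichotomy ((t : ℤ) ^ 2 - 4) l with h | h | h <;> rw [h] <;> norm_num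

/-- VLP. -/
theorem hVLP (hL : StLOP) (hM : StMT) : StVLP := by
  obtain ⟨C, hC, hM⟩ := hM
  have hsum2 : Summable (fun n : ℕ => 1 / (n : ℝ) ^ 2) := by
    exact_mod_cast Real.summable_one_div_nat_pow.2 (by norm_num : 1 < 2)
  obtain ⟨Z, hZ⟩ : ∃ Z, Z = ∑' n : ℕ, 1 / (n : ℝ) ^ 2 := ⟨_, rfl⟩
  refine ⟨Real.exp (-(2 * C + 18 * Z)), Real.exp_pos _, ?_⟩
  intro p w P a y hp hw hP hy
  have hw3 : (3 : ℝ) ≤ w := by exact_mod_cast hw
  have hlog : 0 < Real.log w := Real.log_pos (by linarith)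
  have h1 : ∀ l ∈ QQ p w,
      Real.exp (-(2 * (1 / (l : ℝ)) + js (y - 2) l / l + 18 * (1 / (l : ℝ) ^ 2))) ≤
        1 - ((SS P a y l).card : ℝ) / l := by
    intro l hl
    unfold QQ at hl
    rw [mem_filter, mem_Ioc] at hl
    obtain ⟨⟨h1, h2⟩, h3⟩ := hl
    have hl7 : (7 : ℝ) < l := by exact_mod_cast (by omega : 7 < l)
    have hl0 : (0 : ℝ) < l := by linarith
    have hnd : ¬ l ∣ P := fun hd => by
      have := hP l h3 hd
      omega
    have hcard := (hL P a l h3 (by omega) hnd).1 y hy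
    obtain ⟨b1, b2⟩ := js_bd (y - 2) l
    have hx0 : 0 ≤ (2 + js (y - 2) l) / l := div_nonneg (by linarith) hl0.le
    have hx1 : (2 + js (y - 2) l) / l ≤ 1 / 2 := by
      rw [div_le_iff₀ hl0]
      linarith
    have hf := fac_VLP hx0 hx1
    have hsq : ((2 + js (y - 2) l) / l) ^ 2 ≤ 9 * (1 / (l : ℝ) ^ 2) := by
      rw [div_pow]
      have : (2 + js (y - 2) l) ^ 2 ≤ 9 := by nlinarith
      calc (2 + js (y - 2) l) ^ 2 / (l : ℝ) ^ 2 ≤ 9 / (l : ℝ) ^ 2 := by gcongr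
        _ = _ := by ring
    have e1 : (2 + js (y - 2) l) / l = 2 * (1 / (l : ℝ)) + js (y - 2) l / l := by ring
    calc Real.exp (-(2 * (1 / (l : ℝ)) + js (y - 2) l / l + 18 * (1 / (l : ℝ) ^ 2)))
        ≤ Real.exp (-((2 + js (y - 2) l) / l + 2 * ((2 + js (y - 2) l) / l) ^ 2)) := by
          apply Real.exp_le_exp.2
          rw [neg_le_neg_iff]
          linarith
      _ ≤ 1 - (2 + js (y - 2) l) / l := hf
      _ ≤ 1 - ((SS P a y l).card : ℝ) / l := by gcongr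
  have h2 : Real.exp (-∑ l ∈ QQ p w,
      (2 * (1 / (l : ℝ)) + js (y - 2) l / l + 18 * (1 / (l : ℝ) ^ 2))) ≤ VV p w P a y := by
    unfold VV
    rw [← Finset.sum_neg_distrib, Real.exp_sum]
    exact Finset.prod_le_prod (fun l _ => (Real.exp_pos _).le) h1
  have h3 : ∑ l ∈ QQ p w, (2 * (1 / (l : ℝ)) + js (y - 2) l / l + 18 * (1 / (l : ℝ) ^ 2)) ≤
      Real.log (Real.log w) + Real.log (Real.log w) + |cs p w y| + (2 * C + 18 * Z) := by
    have hsub : QQ p w ⊆ (Icc 1 ⌊(w : ℝ)⌋₊).filter Nat.Prime := by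
      intro l hl
      unfold QQ at hl
      rw [mem_filter, mem_Ioc] at hl
      rw [Nat.floor_natCast, mem_filter, mem_Icc]
      obtain ⟨⟨h1, h2⟩, h3⟩ := hl
      exact ⟨⟨h3.one_le, h2⟩, h3⟩
    rw [Finset.sum_add_distrib, Finset.sum_add_distrib, ← Finset.mul_sum, ← Finset.mul_sum]
    have a1 : ∑ l ∈ QQ p w, 1 / (l : ℝ) ≤ Real.log (Real.log w) + C := by
      have b1 := Finset.sum_le_sum_of_subset_of_nonneg (f := fun l : ℕ => (1 : ℝ) / l) hsub
        (fun l _ _ => by positivity)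
      have b2 := (abs_le.mp (hM w hw3)).2
      linarith
    have a2 : ∑ l ∈ QQ p w, 1 / (l : ℝ) ^ 2 ≤ Z := by
      rw [hZ]
      exact hsum2.sum_le_tsum _ (fun l _ => by positivity)
    have a3 : ∑ l ∈ QQ p w, js (y - 2) l / l ≤ |cs p w y| := le_abs_self _
    linarith
  calc Real.exp (-(2 * C + 18 * Z)) * Real.exp (-|cs p w y|) / Real.log w ^ 2 =
      Real.exp (-(Real.log (Real.log w) + Real.log (Real.log w) + |cs p w y| +
        (2 * C + 18 * Z))) := by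
        have e1 : -(Real.log (Real.log w) + Real.log (Real.log w) + |cs p w y| +
            (2 * C + 18 * Z)) = -(2 * C + 18 * Z) + -|cs p w y| +
            (-Real.log (Real.log w) + -Real.log (Real.log w)) := by ring
        rw [e1, Real.exp_add, Real.exp_add, Real.exp_add, Real.exp_neg (Real.log (Real.log w)),
          Real.exp_log hlog]
        field_simp
    _ ≤ Real.exp (-∑ l ∈ QQ p w,
        (2 * (1 / (l : ℝ)) + js (y - 2) l / l + 18 * (1 / (l : ℝ) ^ 2))) :=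
        Real.exp_le_exp.2 (neg_le_neg h3)
    _ ≤ VV p w P a y := h2

end Pool.Agent.Helper11.LP
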